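import Pool.Agent.helper6.EV.Spec

/-! BU: the admissible set from a matching. -/

set_option autoImplicit false

namespace Pool.Agent.EV

open N1f72dd46 Filter MeasureTheory Complex Metric Pool.Agent.helper6.LD

theorem BU_sum_union_le {s t : Finset ℕ} (f : ℕ → ℕ) :
    ∑ x ∈ s ∪ t, f x ≤ ∑ x ∈ s, f x + ∑ x ∈ t, f x := by
  have h := Finset.sum_union_inter (s₁ := s) (s₂ := t) (f := f)
  omega

theorem BU_final {T n nP nM a s p q pq g x2 xm : ℝ} (h1 : nM - 2 * xm ≤ pq) (h2 : pq + s ≤ g)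
    (h3 : a ≤ s + (p + q)) (h4 : nP ≤ nM + (3 * T + n)) (h5 : xm ≤ T) (h6 : n = x2) (h7 : x2 ≤ T)
    (h8 : p ≤ x2) (h9 : q ≤ T) (h10 : 0 ≤ T) : a + nP - g ≤ 10 * T := by
  linarith

theorem BU (hI1 : I1_stmt) : BU_stmt := by
  classical
  intro n κ X q hκ hκ1 hX hXn hM
  have hX0 : (0 : ℝ) < X := by linarith
  have hX1 : (1 : ℝ) ≤ X := by linarith
  set Y : ℝ := X ^ (1 - κ) with hY
  have hY0 : 0 < Y := Real.rpow_pos_of_pos hX0 _
  have hXn1 : X ≤ n := by rw [← hXn]; nlinarith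
  -- primes up to the root
  set P : Finset ℕ := (Finset.range (Nat.sqrt n + 1)).filter Nat.Prime with hP
  set M : Finset ℕ := P.filter (Mt κ X) with hMdef
  have hsq : ∀ p : ℕ, p ≤ Nat.sqrt n ↔ (p : ℝ) ≤ X := by
    intro p
    rw [Nat.le_sqrt']
    constructor
    · intro h
      have h1 : (p : ℝ) ^ 2 ≤ X ^ 2 := by rw [hXn]; exact_mod_cast h
      exact le_of_sq_le_sq h1 hX0.le
    · intro h
      have h1 : (p : ℝ) ^ 2 ≤ X ^ 2 := pow_le_pow_left₀ (Nat.cast_nonneg p) h 2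
      rw [hXn] at h1
      exact_mod_cast h1
  have hPm : ∀ p, p ∈ P ↔ p.Prime ∧ (p : ℝ) ≤ X := by
    intro p
    rw [hP, Finset.mem_filter, Finset.mem_range, Nat.lt_succ_iff, hsq, and_comm]
  have hMm : ∀ p, p ∈ M ↔ Mt κ X p := by
    intro p
    rw [hMdef, Finset.mem_filter, hPm]
    constructor
    · exact fun h => h.2
    · intro h
      refine ⟨⟨h.1, ?_⟩, h⟩
      have := h.2.2
      rw [← hY] at this
      linarith
  have hMX : ∀ p ∈ M, (p : ℝ) ≤ X := fun p hp => ((hPm p).1 (Finset.mem_filter.1 hp).1).2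
  have hpi : Nat.primeCounting (Nat.sqrt n) = P.card := by
    rw [Nat.primeCounting, Nat.primeCounting', Nat.count_eq_card_filter_range]
  set A : Finset ℕ := (Finset.range n).filter Nat.Prime with hA
  set S2 : Finset ℕ := A.filter (fun r => X < r ∧ ∀ p ∈ M, q p ≠ r) with hS2
  set S1 : Finset ℕ := M.image (fun p => p * q p) with hS1
  -- coprimality
  have hcop1 : ∀ p ∈ M, ∀ r : ℕ, r.Prime → X < r → (∀ p ∈ M, q p ≠ r) →
      Nat.Coprime (p * q p) r := by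
    intro p hp r hr hXr hqr
    have hpM := (hMm p).1 hp
    refine Nat.Coprime.mul_left ?_ ?_
    · rw [Nat.coprime_primes hpM.1 hr]
      rintro rfl
      exact absurd (hMX _ hp) (not_le.2 hXr)
    · rw [Nat.coprime_primes (hM.prime p hpM) hr]
      exact hqr p hp
  have hcop2 : ∀ p ∈ M, ∀ p' ∈ M, p ≠ p' → Nat.Coprime (p * q p) (p' * q p') := by
    intro p hp p' hp' hne
    have hpM := (hMm p).1 hp
    have hpM' := (hMm p').1 hp'
    have h1 : ∀ a ∈ M, ∀ b ∈ M, a ≠ q b := by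
      intro a ha b hb h
      have h2 := hMX a ha
      have h3 := hM.gt b ((hMm b).1 hb)
      rw [← h] at h3
      linarith
    refine Nat.Coprime.mul_left ?_ ?_ <;> refine Nat.Coprime.mul_right ?_ ?_
    · exact (Nat.coprime_primes hpM.1 hpM'.1).2 hne
    · exact (Nat.coprime_primes hpM.1 (hM.prime p' hpM')).2 (h1 p hp p' hp')
    · exact (Nat.coprime_primes (hM.prime p hpM) hpM'.1).2 (h1 p' hp' p hp).symm
    · exact (Nat.coprime_primes (hM.prime p hpM) (hM.prime p' hpM')).2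
        (fun h => hne (hM.inj p p' hpM hpM' h))
  have hadm : IsAdmissible n (S1 ∪ S2) := by
    refine ⟨?_, ?_⟩
    · intro a ha
      rw [Finset.mem_Icc]
      rcases Finset.mem_union.1 ha with h | h
      · obtain ⟨p, hp, rfl⟩ := Finset.mem_image.1 h
        have hpM := (hMm p).1 hp
        exact ⟨Nat.mul_pos hpM.1.pos (hM.prime p hpM).pos, hM.le p hpM⟩
      · obtain ⟨h1, -⟩ := Finset.mem_filter.1 h
        obtain ⟨h2, h3⟩ := Finset.mem_filter.1 h1
        exact ⟨h3.one_le, (Finset.mem_range.1 h2).le⟩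
    · intro a ha b hb hab
      rw [Finset.mem_coe, Finset.mem_union] at ha hb
      rcases ha with ha | ha <;> rcases hb with hb | hb
      · obtain ⟨p, hp, rfl⟩ := Finset.mem_image.1 ha
        obtain ⟨p', hp', rfl⟩ := Finset.mem_image.1 hb
        exact hcop2 p hp p' hp' (fun h => hab (by rw [h]))
      · obtain ⟨p, hp, rfl⟩ := Finset.mem_image.1 ha
        obtain ⟨h1, h2, h3⟩ := Finset.mem_filter.1 hb
        exact hcop1 p hp b (Finset.mem_filter.1 h1).2 h2 h3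
      · obtain ⟨p, hp, rfl⟩ := Finset.mem_image.1 hb
        obtain ⟨h1, h2, h3⟩ := Finset.mem_filter.1 ha
        exact (hcop1 p hp a (Finset.mem_filter.1 h1).2 h2 h3).symm
      · exact (Nat.coprime_primes (Finset.mem_filter.1 (Finset.mem_filter.1 ha).1).2
          (Finset.mem_filter.1 (Finset.mem_filter.1 hb).1).2).2 hab
  have hdis : Disjoint S1 S2 := by
    rw [Finset.disjoint_left]
    intro a ha hb
    obtain ⟨p, hp, rfl⟩ := Finset.mem_image.1 ha
    obtain ⟨h1, h2, h3⟩ := Finset.mem_filter.1 hb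
    have hpr : (p * q p).Prime := (Finset.mem_filter.1 h1).2
    have h4 := hcop1 p hp _ hpr h2 h3
    rw [Nat.coprime_self] at h4
    exact hpr.one_lt.ne' h4
  have hinj : Set.InjOn (fun p => p * q p) (M : Set ℕ) := by
    intro p hp p' hp' h
    by_contra hne
    have h1 := hcop2 p hp p' hp' hne
    have h' : p * q p = p' * q p' := h
    rw [h', Nat.coprime_self] at h1
    have hpM' := (hMm p').1 hp'
    have := Nat.eq_one_of_mul_eq_one_right h1
    exact hpM'.1.one_lt.ne' this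
  have hG : ∑ p ∈ M, p * q p + ∑ r ∈ S2, r ≤ G n := by
    have h := (hI1 n).2 _ hadm
    rw [Finset.sum_union hdis, Finset.sum_image hinj] at h
    exact h
  have hAsub : A ⊆ S2 ∪ (P ∪ M.image q) := by
    intro r hr
    have hrp : r.Prime := (Finset.mem_filter.1 hr).2
    rw [Finset.mem_union, Finset.mem_union]
    by_cases h1 : (r : ℝ) ≤ X
    · right; left
      exact (hPm r).2 ⟨hrp, h1⟩
    · by_cases h2 : ∃ p ∈ M, q p = r
      · right; right
        obtain ⟨p, hp, rfl⟩ := h2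
        exact Finset.mem_image_of_mem _ hp
      · left
        refine Finset.mem_filter.2 ⟨hr, not_le.1 h1, fun p hp h => h2 ⟨p, hp, h⟩⟩
  have hAsum : ∑ r ∈ A, r ≤ ∑ r ∈ S2, r + (∑ r ∈ P, r + ∑ p ∈ M, q p) := by
    refine (Finset.sum_le_sum_of_subset hAsub).trans ?_
    refine (BU_sum_union_le _).trans ?_
    refine Nat.add_le_add_left ?_ _
    refine (BU_sum_union_le _).trans ?_
    refine Nat.add_le_add_left ?_ _
    rw [Finset.sum_image (fun p hp p' hp' h => hM.inj p p' ((hMm p).1 hp) ((hMm p').1 hp') h)]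
  -- cards
  have hPcard : (P.card : ℝ) ≤ X := by
    have h1 : P ⊆ Finset.Icc 1 (Nat.sqrt n) := by
      intro p hp
      obtain ⟨h1, h2⟩ := Finset.mem_filter.1 hp
      exact Finset.mem_Icc.2 ⟨h2.one_le, Nat.lt_succ_iff.1 (Finset.mem_range.1 h1)⟩
    have h2 := Finset.card_le_card h1
    rw [Nat.card_Icc, Nat.add_sub_cancel] at h2
    have h3 : ((Nat.sqrt n : ℕ) : ℝ) ≤ X := (hsq _).1 le_rfl
    have h4 : (P.card : ℝ) ≤ (Nat.sqrt n : ℕ) := by exact_mod_cast h2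
    linarith
  have hMcard : (M.card : ℝ) ≤ X := by
    have h1 : (M.card : ℝ) ≤ P.card := by
      exact_mod_cast Finset.card_le_card (Finset.filter_subset _ _)
    linarith
  have hdiff : (P.card : ℝ) ≤ M.card + (3 * Y + 1) := by
    have h1 : P ⊆ M ∪ (Finset.Icc 1 ⌊Y⌋₊ ∪ Finset.Ioc ⌊X - 2 * Y⌋₊ ⌊X⌋₊) := by
      intro p hp
      have hp' := (hPm p).1 hp
      rw [Finset.mem_union, Finset.mem_union]
      by_cases h2 : (p : ℝ) ≤ Y
      · right; left
        exact Finset.mem_Icc.2 ⟨hp'.1.one_le, Nat.le_floor h2⟩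
      · by_cases h3 : (p : ℝ) ≤ X - 2 * Y
        · left
          exact (hMm p).2 ⟨hp'.1, not_le.1 h2, h3⟩
        · right; right
          refine Finset.mem_Ioc.2 ⟨?_, Nat.le_floor hp'.2⟩
          by_cases h4 : 0 ≤ X - 2 * Y
          · rw [Nat.floor_lt h4]
            exact not_le.1 h3
          · rw [Nat.floor_of_nonpos (not_le.1 h4).le]
            exact hp'.1.pos
    have h2 := (Finset.card_le_card h1).trans ((Finset.card_union_le _ _).trans
      (Nat.add_le_add_left (Finset.card_union_le _ _) _))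
    rw [Nat.card_Icc, Nat.card_Ioc, Nat.add_sub_cancel] at h2
    have h3 : (P.card : ℝ) ≤ M.card + ((⌊Y⌋₊ : ℕ) + ((⌊X⌋₊ - ⌊X - 2 * Y⌋₊ : ℕ) : ℝ)) := by
      exact_mod_cast h2
    have h4 : ((⌊Y⌋₊ : ℕ) : ℝ) ≤ Y := Nat.floor_le hY0.le
    have h5 : ((⌊X⌋₊ - ⌊X - 2 * Y⌋₊ : ℕ) : ℝ) ≤ 2 * Y + 1 := by
      have h6 : ⌊X - 2 * Y⌋₊ ≤ ⌊X⌋₊ := Nat.floor_le_floor (by linarith)
      rw [Nat.cast_sub h6]
      have h7 : ((⌊X⌋₊ : ℕ) : ℝ) ≤ X := Nat.floor_le hX0.le
      have h8 : X - 2 * Y < ((⌊X - 2 * Y⌋₊ : ℕ) : ℝ) + 1 := Nat.lt_floor_add_one _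
      linarith
    linarith
  have hPsum : ((∑ r ∈ P, r : ℕ) : ℝ) ≤ X * X := by
    rw [Nat.cast_sum]
    have h1 : ∑ r ∈ P, (r : ℝ) ≤ ∑ r ∈ P, X :=
      Finset.sum_le_sum fun r hr => ((hPm r).1 hr).2
    rw [Finset.sum_const, nsmul_eq_mul] at h1
    exact h1.trans (mul_le_mul_of_nonneg_right hPcard hX0.le)
  have hqsum : ((∑ p ∈ M, q p : ℕ) : ℝ) ≤ X * X ^ (1 + κ) := by
    rw [Nat.cast_sum]
    have h1 : ∑ p ∈ M, (q p : ℝ) ≤ ∑ p ∈ M, X ^ (1 + κ) :=
      Finset.sum_le_sum fun p hp => hM.small p ((hMm p).1 hp)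
    rw [Finset.sum_const, nsmul_eq_mul] at h1
    exact h1.trans (mul_le_mul_of_nonneg_right hMcard (Real.rpow_nonneg hX0.le _))
  have hpq : (M.card : ℝ) * (n - 2 * X ^ (2 - 2 * κ)) ≤ ((∑ p ∈ M, p * q p : ℕ) : ℝ) := by
    rw [Nat.cast_sum, ← nsmul_eq_mul, ← Finset.sum_const]
    refine Finset.sum_le_sum fun p hp => ?_
    have := hM.close p ((hMm p).1 hp)
    push_cast
    linarith
  have hGr : ((∑ p ∈ M, p * q p : ℕ) : ℝ) + ((∑ r ∈ S2, r : ℕ) : ℝ) ≤ G n := by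
    exact_mod_cast hG
  have hAr : ((∑ r ∈ A, r : ℕ) : ℝ) ≤ ((∑ r ∈ S2, r : ℕ) : ℝ) +
      (((∑ r ∈ P, r : ℕ) : ℝ) + ((∑ p ∈ M, q p : ℕ) : ℝ)) := by
    exact_mod_cast hAsum
  have hH : (H n : ℝ) = ((∑ r ∈ A, r : ℕ) : ℝ) + n * P.card := by
    unfold H
    rw [hpi]
    push_cast
    rfl
  have hn0 : (0 : ℝ) ≤ n := Nat.cast_nonneg n
  have hnP : (n : ℝ) * P.card ≤ n * M.card + n * (3 * Y + 1) := by
    rw [← mul_add]
    exact mul_le_mul_of_nonneg_left hdiff hn0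
  have hpow : X ^ (2 - 2 * κ) * M.card ≤ X ^ (2 - 2 * κ) * X :=
    mul_le_mul_of_nonneg_left hMcard (Real.rpow_nonneg hX0.le _)
  have e1 : X ^ (2 - 2 * κ) * X = X ^ (3 - 2 * κ) := by
    rw [← Real.rpow_add_one hX0.ne']
    congr 1; ring
  have e2 : (n : ℝ) * Y = X ^ (3 - κ) := by
    rw [← hXn, hY, ← Real.rpow_natCast, ← Real.rpow_add hX0]
    congr 1; push_cast; ring
  have e3 : X * X ^ (1 + κ) = X ^ (2 + κ) := by
    rw [mul_comm, ← Real.rpow_add_one hX0.ne']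
    congr 1; ring
  have e4 : X * X = X ^ (2 : ℝ) := by
    rw [Real.rpow_two]; ring
  have l1 : X ^ (3 - 2 * κ) ≤ X ^ (3 - κ) := Real.rpow_le_rpow_of_exponent_le hX1 (by linarith)
  have l2 : X ^ (2 + κ) ≤ X ^ (3 - κ) := Real.rpow_le_rpow_of_exponent_le hX1 (by linarith)
  have l3 : X ^ (2 : ℝ) ≤ X ^ (3 - κ) := Real.rpow_le_rpow_of_exponent_le hX1 (by linarith)
  have hnX : (n : ℝ) = X ^ (2 : ℝ) := by rw [← hXn, Real.rpow_two]
  rw [hH]
  have l4 : 0 ≤ X ^ (3 - κ) := Real.rpow_nonneg hX0.le _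
  have hpq' : (n : ℝ) * M.card - 2 * (X ^ (2 - 2 * κ) * M.card) ≤
      ((∑ p ∈ M, p * q p : ℕ) : ℝ) := by
    refine le_trans (le_of_eq ?_) hpq
    ring
  have hnP' : (n : ℝ) * P.card ≤ n * M.card + (3 * (n * Y) + n) := by
    refine hnP.trans (le_of_eq ?_)
    ring
  rw [e2] at hnP'
  rw [e1] at hpow
  rw [e3] at hqsum
  rw [e4] at hPsum
  exact BU_final hpq' hGr hAr hnP' (hpow.trans l1) hnX l3 hPsum (hqsum.trans l2) l4

end Pool.Agent.EV
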